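import Pool.Agent.N647.FG.Quadric

set_option autoImplicit false

/-! # Exponential sums over quadrics given by symmetric matrices -/

namespace Pool.Agent.N647.FG

open Finset

variable {p : ℕ} [Fact p.Prime]

/-- diagonalisation of a symmetric matrix modulo an odd prime -/
lemma diagonal (hp2 : p ≠ 2) (r : ℕ) (A : Matrix (Fin r) (Fin r) (ZMod p)) (hA : A.IsSymm)
    (hdet : A.det ≠ 0) : ∃ a : Fin r → ZMod p, (∀ j, a j ≠ 0) ∧
    ∃ T : (Fin r → ZMod p) ≃ₗ[ZMod p] (Fin r → ZMod p),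
      ∀ x, ∑ i, ∑ j, A i j * T x i * T x j = ∑ j, a j * x j ^ 2 := by
  classical
  obtain ⟨h, h2⟩ := exists_half hp2
  let _ : Invertible (2 : ZMod p) := ⟨h, by rw [mul_comm]; exact h2, h2⟩
  set B : (Fin r → ZMod p) →ₗ[ZMod p] (Fin r → ZMod p) →ₗ[ZMod p] ZMod p :=
    Matrix.toLinearMap₂' (ZMod p) A with hB
  have hBs : ∀ x y, B x y = B y x := by
    intro x y
    rw [hB, Matrix.toLinearMap₂'_apply', Matrix.toLinearMap₂'_apply', Matrix.dotProduct_mulVec,
      ← Matrix.mulVec_transpose, hA.eq, dotProduct_comm]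
  set Q : QuadraticForm (ZMod p) (Fin r → ZMod p) :=
    LinearMap.BilinMap.toQuadraticMap B with hQ
  have h3 : (QuadraticMap.associated (R := ZMod p) Q).SeparatingLeft := by
    rw [hQ, QuadraticMap.associated_left_inverse (ZMod p) hBs, hB,
      Matrix.separatingLeft_toLinearMap₂'_iff]
    exact Matrix.separatingLeft_iff_det_ne_zero.mpr hdet
  obtain ⟨w, ⟨e⟩⟩ := QuadraticForm.equivalent_weightedSumSquares_units_of_nondegenerate' Q h3
  have hfr : Module.finrank (ZMod p) (Fin r → ZMod p) = r := by simp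
  set c := finCongr hfr with hc
  refine ⟨fun j => (w (c.symm j) : ZMod p), fun j => (w (c.symm j)).ne_zero,
    (LinearEquiv.funCongrLeft (ZMod p) (ZMod p) c).trans e.toLinearEquiv.symm, fun x => ?_⟩
  set y := ((LinearEquiv.funCongrLeft (ZMod p) (ZMod p) c).trans e.toLinearEquiv.symm) x with hy
  have h4 : e y = (LinearEquiv.funCongrLeft (ZMod p) (ZMod p) c) x := by
    rw [hy]
    exact e.toLinearEquiv.apply_symm_apply _
  have h5 : Q y = ∑ i, ∑ j, A i j * y i * y j := by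
    rw [hQ, LinearMap.BilinMap.toQuadraticMap_apply, hB, Matrix.toLinearMap₂'_apply]
    refine sum_congr rfl fun i _ => sum_congr rfl fun j _ => ?_
    simp only [smul_eq_mul]
    ring
  rw [← h5, ← e.map_app, h4, QuadraticMap.weightedSumSquares_apply,
    ← Equiv.sum_comp c (fun j => (w (c.symm j) : ZMod p) * x j ^ 2)]
  refine sum_congr rfl fun i _ => ?_
  rw [Equiv.symm_apply_apply, LinearEquiv.funCongrLeft_apply, LinearMap.funLeft_apply]
  rw [Units.smul_def, smul_eq_mul, sq]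

/-- the points of the quadric -/
def quadric (r : ℕ) (A : Matrix (Fin r) (Fin r) (ZMod p)) (n : ZMod p) : Finset (Fin r → ZMod p) :=
  univ.filter (fun x => ∑ i, ∑ j, A i j * x i * x j = n)

lemma reduce (hp2 : p ≠ 2) (r : ℕ) (A : Matrix (Fin r) (Fin r) (ZMod p)) (hA : A.IsSymm)
    (hdet : A.det ≠ 0) (n : ZMod p) (K : ℝ)
    (hK : ∀ a β : Fin r → ZMod p, (∀ j, a j ≠ 0) →
      ‖(p : ℂ) * ∑ x ∈ univ.filter (fun x : Fin r → ZMod p => ∑ j, a j * x j ^ 2 = n),
        (ZMod.stdAddChar (∑ j, β j * x j) : ℂ) - (if β = 0 then (p : ℂ) ^ r else 0)‖ ≤ K)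
    (α : Fin r → ZMod p) :
    ‖(p : ℂ) * ∑ x ∈ quadric r A n, (ZMod.stdAddChar (∑ j, α j * x j) : ℂ) -
      (if α = 0 then (p : ℂ) ^ r else 0)‖ ≤ K := by
  classical
  obtain ⟨a, ha, T, hT⟩ := diagonal hp2 r A hA hdet
  set β : Fin r → ZMod p := fun i => ∑ j, α j * T (Pi.single i 1) j with hβ
  have h1 : ∀ x, ∑ j, α j * T x j = ∑ i, β i * x i := by
    intro x
    have e1 : x = ∑ i, x i • (Pi.single i (1 : ZMod p) : Fin r → ZMod p) := by
      funext j
      rw [Finset.sum_apply]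
      simp [Pi.single_apply]
    conv_lhs => rw [e1]
    simp only [map_sum, map_smul, Finset.sum_apply, Pi.smul_apply, smul_eq_mul, hβ]
    simp_rw [mul_sum, sum_mul]
    rw [sum_comm]
    refine sum_congr rfl fun i _ => sum_congr rfl fun j _ => ?_
    ring
  have h2 : (β = 0) ↔ (α = 0) := by
    constructor
    · intro h0
      funext j
      have h3 := h1 (T.symm (Pi.single j 1))
      rw [h0] at h3
      simpa [Pi.single_apply] using h3
    · intro h0
      rw [hβ, h0]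
      funext i
      simp
  have h3 : ∑ x ∈ quadric r A n, (ZMod.stdAddChar (∑ j, α j * x j) : ℂ) =
      ∑ x ∈ univ.filter (fun x : Fin r → ZMod p => ∑ j, a j * x j ^ 2 = n),
        (ZMod.stdAddChar (∑ j, β j * x j) : ℂ) := by
    symm
    refine sum_bij' (fun x _ => T x) (fun y _ => T.symm y) ?_ ?_ ?_ ?_ ?_
    · intro x hx
      rw [quadric, mem_filter]
      refine ⟨mem_univ _, ?_⟩
      rw [hT x]
      exact (mem_filter.mp hx).2
    · intro y hy
      rw [mem_filter]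
      refine ⟨mem_univ _, ?_⟩
      rw [← hT, T.apply_symm_apply]
      exact (mem_filter.mp hy).2
    · intro x _
      exact T.symm_apply_apply x
    · intro y _
      exact T.apply_symm_apply y
    · intro x _
      rw [h1]
  rw [h3]
  have h4 := hK a β ha
  simp only [h2] at h4
  exact h4

/-- the exponential sums and the number of points of a quadric `A[x] = n`, `n ≠ 0` -/
theorem quadric_bias (hp : 16 ≤ p) (r : ℕ) (hr : 2 ≤ r) (A : Matrix (Fin r) (Fin r) (ZMod p))
    (hA : A.IsSymm) (hdet : A.det ≠ 0) (n : ZMod p) (hn : n ≠ 0) :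
    (p : ℝ) ^ (r - 1) / 2 ≤ (quadric r A n).card ∧ ∀ α : Fin r → ZMod p, α ≠ 0 →
      ‖∑ x ∈ quadric r A n, (ZMod.stdAddChar (∑ j, α j * x j) : ℂ)‖ ≤
        2 * (Real.sqrt p) ^ (r - 1) := by
  have hp2 : p ≠ 2 := by omega
  have hp0 : (0 : ℝ) < p := by exact_mod_cast (Fact.out : p.Prime).pos
  have hb := reduce hp2 r A hA hdet n (2 * (Real.sqrt p) ^ (r + 1))
    (fun a β ha => quad_bound hp2 r a β ha n hn)
  have hsq : Real.sqrt p * Real.sqrt p = p := Real.mul_self_sqrt hp0.le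
  have hs4 : 4 ≤ Real.sqrt p := by
    rw [Real.le_sqrt (by norm_num) hp0.le]
    have : (16 : ℝ) ≤ p := by exact_mod_cast hp
    linarith
  obtain ⟨m, rfl⟩ : ∃ m, r = m + 2 := ⟨r - 2, by omega⟩
  have e0 : m + 2 - 1 = m + 1 := by omega
  rw [e0]
  constructor
  · have h1 := hb 0
    rw [if_pos rfl] at h1
    simp only [Pi.zero_apply, zero_mul, sum_const_zero, AddChar.map_zero_eq_one, sum_const,
      nsmul_eq_mul, mul_one] at h1
    have h2 : ‖(((p : ℝ) * (quadric (m + 2) A n).card - (p : ℝ) ^ (m + 2) : ℝ) : ℂ)‖ ≤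
        2 * (Real.sqrt p) ^ (m + 2 + 1) := by
      push_cast
      exact h1
    rw [Complex.norm_real, Real.norm_eq_abs] at h2
    have h3 := (abs_le.mp h2).1
    have h4 : 2 * (Real.sqrt p) ^ (m + 2 + 1) ≤ (p : ℝ) ^ (m + 2) / 2 := by
      have e1 : (p : ℝ) ^ (m + 2) = (Real.sqrt p) ^ (m + 2 + 1) * (Real.sqrt p) ^ (m + 1) := by
        rw [← pow_add, show m + 2 + 1 + (m + 1) = (m + 2) + (m + 2) by ring,
          pow_add (Real.sqrt p), ← mul_pow, hsq]
      rw [e1]
      have h5 : 4 ≤ (Real.sqrt p) ^ (m + 1) := by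
        calc (4 : ℝ) ≤ Real.sqrt p := hs4
          _ = (Real.sqrt p) ^ 1 := (pow_one _).symm
          _ ≤ _ := pow_le_pow_right₀ (by linarith) (by omega)
      have h6 : 0 ≤ (Real.sqrt p) ^ (m + 2 + 1) := by positivity
      nlinarith
    have h7 : (p : ℝ) * ((p : ℝ) ^ (m + 1) / 2) ≤ p * (quadric (m + 2) A n).card := by
      have e2 : (p : ℝ) * ((p : ℝ) ^ (m + 1) / 2) = (p : ℝ) ^ (m + 2) / 2 := by ring
      rw [e2]
      linarith
    exact le_of_mul_le_mul_left h7 hp0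
  · intro α hα
    have h1 := hb α
    rw [if_neg hα, sub_zero, norm_mul, Complex.norm_natCast] at h1
    have h2 : 2 * (Real.sqrt p) ^ (m + 2 + 1) = p * (2 * (Real.sqrt p) ^ (m + 1)) := by
      rw [show m + 2 + 1 = 2 + (m + 1) by ring, pow_add, sq, hsq]
      ring
    rw [h2] at h1
    exact le_of_mul_le_mul_left h1 hp0

/-- the exponential sums and the number of points of a quadric `A[x] = n` -/
theorem quadric_bias_zero (hp : 16 ≤ p) (r : ℕ) (hr : 3 ≤ r) (A : Matrix (Fin r) (Fin r) (ZMod p))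
    (hA : A.IsSymm) (hdet : A.det ≠ 0) (n : ZMod p) :
    (p : ℝ) ^ (r - 1) / 2 ≤ (quadric r A n).card ∧ ∀ α : Fin r → ZMod p, α ≠ 0 →
      ‖∑ x ∈ quadric r A n, (ZMod.stdAddChar (∑ j, α j * x j) : ℂ)‖ ≤
        2 * (Real.sqrt p) ^ r := by
  have hp2 : p ≠ 2 := by omega
  have hp0 : (0 : ℝ) < p := by exact_mod_cast (Fact.out : p.Prime).pos
  have hb := reduce hp2 r A hA hdet n ((Real.sqrt p) ^ (r + 2))
    (fun a β ha => quad_bound_zero hp2 r a β ha n)
  have hsq : Real.sqrt p * Real.sqrt p = p := Real.mul_self_sqrt hp0.le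
  have hs4 : 4 ≤ Real.sqrt p := by
    rw [Real.le_sqrt (by norm_num) hp0.le]
    have : (16 : ℝ) ≤ p := by exact_mod_cast hp
    linarith
  obtain ⟨m, rfl⟩ : ∃ m, r = m + 3 := ⟨r - 3, by omega⟩
  have e0 : m + 3 - 1 = m + 2 := by omega
  rw [e0]
  constructor
  · have h1 := hb 0
    rw [if_pos rfl] at h1
    simp only [Pi.zero_apply, zero_mul, sum_const_zero, AddChar.map_zero_eq_one, sum_const,
      nsmul_eq_mul, mul_one] at h1
    have h2 : ‖(((p : ℝ) * (quadric (m + 3) A n).card - (p : ℝ) ^ (m + 3) : ℝ) : ℂ)‖ ≤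
        (Real.sqrt p) ^ (m + 3 + 2) := by
      push_cast
      exact h1
    rw [Complex.norm_real, Real.norm_eq_abs] at h2
    have h3 := (abs_le.mp h2).1
    have h4 : (Real.sqrt p) ^ (m + 3 + 2) ≤ (p : ℝ) ^ (m + 3) / 2 := by
      have e1 : (p : ℝ) ^ (m + 3) = (Real.sqrt p) ^ (m + 3 + 2) * (Real.sqrt p) ^ (m + 1) := by
        rw [← pow_add, show m + 3 + 2 + (m + 1) = (m + 3) + (m + 3) by ring,
          pow_add (Real.sqrt p), ← mul_pow, hsq]
      rw [e1]
      have h5 : 4 ≤ (Real.sqrt p) ^ (m + 1) := by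
        calc (4 : ℝ) ≤ Real.sqrt p := hs4
          _ = (Real.sqrt p) ^ 1 := (pow_one _).symm
          _ ≤ _ := pow_le_pow_right₀ (by linarith) (by omega)
      have h6 : 0 ≤ (Real.sqrt p) ^ (m + 3 + 2) := by positivity
      nlinarith
    have h7 : (p : ℝ) * ((p : ℝ) ^ (m + 2) / 2) ≤ p * (quadric (m + 3) A n).card := by
      have e2 : (p : ℝ) * ((p : ℝ) ^ (m + 2) / 2) = (p : ℝ) ^ (m + 3) / 2 := by ring
      rw [e2]
      linarith
    exact le_of_mul_le_mul_left h7 hp0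
  · intro α hα
    have h1 := hb α
    rw [if_neg hα, sub_zero, norm_mul, Complex.norm_natCast] at h1
    have h2 : (Real.sqrt p) ^ (m + 3 + 2) = p * ((Real.sqrt p) ^ (m + 3)) := by
      rw [pow_add, sq, hsq]
      ring
    rw [h2] at h1
    have h3 := le_of_mul_le_mul_left h1 hp0
    have h4 : 0 ≤ (Real.sqrt p) ^ (m + 3) := by positivity
    linarith

end Pool.Agent.N647.FG
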