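import Pool.Agent.N647.FG.Count
import Pool.Agent.H693R3.SpecDir2

set_option autoImplicit false

/-! # Exponential sums of progressions in short intervals -/

namespace Pool.Agent.N647.FG

open Finset

/-- the integers of `(M, M + L]` which are `≡ ρ` modulo `q` -/
noncomputable def AP (M : ℤ) (L q : ℕ) (ρ : ℤ) : Finset ℤ :=
  (Ioc M (M + L)).filter (fun x => (q : ℤ) ∣ x - ρ)

lemma AP_one (M : ℤ) (L : ℕ) (ρ : ℤ) : AP M L 1 ρ = Ioc M (M + L) := by
  unfold AP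
  rw [filter_true_of_mem]
  intro x _
  simp

lemma AP_eq (M : ℤ) (L q : ℕ) (hq : 1 ≤ q) (ρ : ℤ) : AP M L q ρ =
    (Ioc ((M - ρ) / q) ((M + L - ρ) / q)).map
      ⟨fun k => k * q + ρ, fun a b h => by
        have hq0 : (q : ℤ) ≠ 0 := by exact_mod_cast (by omega : q ≠ 0)
        simp only at h
        exact mul_right_cancel₀ hq0 (by linarith)⟩ := by
  have hq0 : (0 : ℤ) < q := by exact_mod_cast hq
  ext x
  simp only [AP, mem_filter, mem_Ioc, mem_map]
  constructor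
  · rintro ⟨⟨h1, h2⟩, k, hk⟩
    refine ⟨k, ⟨?_, ?_⟩, ?_⟩
    · rw [Int.ediv_lt_iff_lt_mul hq0]
      nlinarith
    · rw [Int.le_ediv_iff_mul_le hq0]
      nlinarith
    · show k * q + ρ = x
      linarith
  · rintro ⟨k, ⟨h1, h2⟩, h3⟩
    have h4 : x = k * q + ρ := h3.symm
    subst h4
    rw [Int.ediv_lt_iff_lt_mul hq0] at h1
    rw [Int.le_ediv_iff_mul_le hq0] at h2
    exact ⟨⟨by linarith, by linarith⟩, ⟨k, by ring⟩⟩

/-- the number of terms of the progression, written with the ends -/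
lemma AP_ends (M : ℤ) (L q : ℕ) (hq : 1 ≤ q) (ρ : ℤ) :
    ∃ (A : ℤ) (N : ℕ), (M + L - ρ) / q = A + N ∧ (M - ρ) / q = A ∧
      |(N : ℝ) - (L : ℝ) / q| ≤ 1 := by
  have hq0 : (0 : ℤ) < q := by exact_mod_cast hq
  have hqR : (0 : ℝ) < q := by exact_mod_cast hq
  have h1 : (M - ρ) / q ≤ (M + L - ρ) / q := Int.ediv_le_ediv hq0 (by omega)
  obtain ⟨N, hN⟩ := Int.eq_ofNat_of_zero_le (sub_nonneg.mpr h1)
  refine ⟨(M - ρ) / q, N, by linarith, rfl, ?_⟩
  have e1 := Int.mul_ediv_add_emod (M - ρ) q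
  have e2 := Int.mul_ediv_add_emod (M + L - ρ) q
  have a1 := Int.emod_nonneg (M - ρ) hq0.ne'
  have a2 := Int.emod_nonneg (M + L - ρ) hq0.ne'
  have b1 := Int.emod_lt_of_pos (M - ρ) hq0
  have b2 := Int.emod_lt_of_pos (M + L - ρ) hq0
  have e3 : (q : ℤ) * N - L = (M - ρ) % q - (M + L - ρ) % q := by
    rw [← hN]
    linear_combination e2 - e1
  have h3 : |(q : ℤ) * N - L| ≤ q := by
    rw [e3, abs_le]
    constructor <;> linarith
  have h4 : |(q : ℝ) * N - L| ≤ q := by exact_mod_cast h3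
  have h5 : (N : ℝ) - (L : ℝ) / q = ((q : ℝ) * N - L) / q := by field_simp
  rw [h5, abs_div, abs_of_pos hqR, div_le_one hqR]
  exact h4

lemma geo (ζ : ℂ) (hζ0 : ζ ≠ 0) (A : ℤ) (N : ℕ) :
    (1 - ζ) * ∑ k ∈ Ioc A (A + N), ζ ^ k = ζ ^ (A + 1) - ζ ^ (A + N + 1) := by
  induction N with
  | zero => simp
  | succ n ih =>
    have h1 : Ioc A (A + (n + 1 : ℕ)) = insert (A + n + 1) (Ioc A (A + n)) := by
      ext x
      simp only [mem_Ioc, mem_insert]
      push_cast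
      omega
    rw [h1, sum_insert (by simp), mul_add, ih]
    push_cast
    have h2 : ζ ^ (A + (n + 1) + 1) = ζ ^ (A + n + 1) * ζ := by
      rw [← zpow_add_one₀ hζ0]
      congr 1
      ring
    rw [h2]
    ring

lemma card_Ioc_nat (A : ℤ) (N : ℕ) : (Ioc A (A + N)).card = N := by
  rw [Int.card_Ioc]
  simp

lemma AP_card (M : ℤ) (L q : ℕ) (hq : 1 ≤ q) (ρ : ℤ) :
    |((AP M L q ρ).card : ℝ) - (L : ℝ) / q| ≤ 1 := by
  obtain ⟨A, N, h1, h2, h3⟩ := AP_ends M L q hq ρ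
  rw [AP_eq M L q hq, card_map, h1, h2, card_Ioc_nat]
  exact h3

variable {p : ℕ} [Fact p.Prime]

/-- the exponential sum of the progression -/
lemma F_AP (M : ℤ) (L q : ℕ) (hq : 1 ≤ q) (ρ : ℤ) (α : ZMod p) (h : α * (q : ZMod p) ≠ 0) :
    ‖F (AP M L q ρ) α‖ ≤ 2 * (1 / ‖(1 : ℂ) - ZMod.stdAddChar (-(α * (q : ZMod p)))‖) := by
  obtain ⟨A, N, h1, h2, -⟩ := AP_ends M L q hq ρ
  set ζ : ℂ := ZMod.stdAddChar (-(α * (q : ZMod p))) with hζ
  have hζ0 : ζ ≠ 0 := by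
    intro h0
    have : ‖ζ‖ = 1 := AddChar.norm_apply _ _
    rw [h0, norm_zero] at this
    exact zero_ne_one this
  have hζn : ‖ζ‖ = 1 := AddChar.norm_apply _ _
  have hζ1 : 1 - ζ ≠ 0 := by
    intro h0
    have h3 : ζ = 1 := by linear_combination -h0
    rw [hζ, ← AddChar.map_zero_eq_one (ZMod.stdAddChar (N := p))] at h3
    exact h (neg_eq_zero.mp (ZMod.injective_stdAddChar h3))
  have h4 : F (AP M L q ρ) α = ZMod.stdAddChar (-(α * (ρ : ZMod p))) *
      ∑ k ∈ Ioc A (A + N), ζ ^ k := by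
    unfold F
    rw [AP_eq M L q hq, sum_map, h1, h2, mul_sum]
    refine sum_congr rfl fun k _ => ?_
    rw [hζ, ← AddChar.map_zsmul_eq_zpow, ← AddChar.map_add_eq_mul]
    congr 1
    show -(α * (((k * q + ρ : ℤ)) : ZMod p)) = _
    push_cast
    rw [zsmul_eq_mul]
    ring
  rw [h4, norm_mul, AddChar.norm_apply, one_mul]
  have h5 := geo ζ hζ0 A N
  have h6 : ‖1 - ζ‖ * ‖∑ k ∈ Ioc A (A + N), ζ ^ k‖ ≤ 2 := by
    rw [← norm_mul, h5]
    refine (norm_sub_le _ _).trans ?_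
    rw [norm_zpow, norm_zpow, hζn, one_zpow, one_zpow]
    norm_num
  have h7 : 0 < ‖1 - ζ‖ := norm_pos_iff.mpr hζ1
  rw [mul_one_div, le_div_iff₀ h7]
  linarith

/-- the mean of the exponential sums of a progression is at most `log p + 3` -/
theorem W_AP (M : ℤ) (L q : ℕ) (hq : 1 ≤ q) (hqp : q < p) (hL : L ≤ p) (ρ : ℤ) :
    W p (AP M L q ρ) ≤ Real.log p + 3 := by
  have hp1 : 1 ≤ p := (Fact.out : p.Prime).one_le
  have hpR : (1 : ℝ) ≤ p := by exact_mod_cast hp1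
  have hp0 : (0 : ℝ) < p := by linarith
  have hqp0 : (q : ZMod p) ≠ 0 := by
    rw [Ne, ZMod.natCast_eq_zero_iff]
    intro hd
    have := Nat.le_of_dvd hq hd
    omega
  have hcard : ((AP M L q ρ).card : ℝ) ≤ p + 1 := by
    have h1 := (abs_le.mp (AP_card M L q hq ρ)).2
    have h2 : (L : ℝ) / q ≤ L := div_le_self (by positivity) (by exact_mod_cast hq)
    have h3 : (L : ℝ) ≤ p := by exact_mod_cast hL
    linarith
  unfold W
  rw [← add_sum_erase univ _ (mem_univ (0 : ZMod p)), F_zero, Complex.norm_natCast]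
  have h1 : ∑ α ∈ univ.erase (0 : ZMod p), ‖F (AP M L q ρ) α‖ ≤
      2 * ∑ α ∈ univ.erase (0 : ZMod p), 1 / ‖(1 : ℂ) - ZMod.stdAddChar α‖ := by
    refine (sum_le_sum fun α hα => F_AP M L q hq ρ α
      (mul_ne_zero (ne_of_mem_erase hα) hqp0)).trans (le_of_eq ?_)
    rw [← mul_sum]
    congr 1
    refine sum_bij' (fun α _ => -(α * (q : ZMod p))) (fun α _ => -(α * (q : ZMod p)⁻¹))
      ?_ ?_ ?_ ?_ ?_
    · intro α hα
      rw [mem_erase]
      exact ⟨neg_ne_zero.mpr (mul_ne_zero (ne_of_mem_erase hα) hqp0), mem_univ _⟩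
    · intro α hα
      rw [mem_erase]
      exact ⟨neg_ne_zero.mpr (mul_ne_zero (ne_of_mem_erase hα) (inv_ne_zero hqp0)), mem_univ _⟩
    · intro α _
      field_simp
    · intro α _
      field_simp
    · intro α _
      rfl
  have h2 := Pool.Agent.H693R3.SpecDir.sum_inv_le (p := p)
  have h3 : 0 ≤ Real.log p := Real.log_nonneg hpR
  calc 1 / (p : ℝ) * ((AP M L q ρ).card + ∑ α ∈ univ.erase (0 : ZMod p), ‖F (AP M L q ρ) α‖)
      ≤ 1 / (p : ℝ) * ((p + 1) + 2 * (p / 2 * (1 + Real.log p))) := by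
        apply mul_le_mul_of_nonneg_left _ (by positivity)
        linarith
    _ = Real.log p + 2 + 1 / p := by field_simp; ring
    _ ≤ _ := by
      have : 1 / (p : ℝ) ≤ 1 := by rw [div_le_one hp0]; exact hpR
      linarith

lemma W_nonneg (X : Finset ℤ) : 0 ≤ W p X := by
  unfold W
  positivity

end Pool.Agent.N647.FG
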