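import Pool.Agent.N647.FG.AP
import Pool.Agent.Y961.JR.Crit
import Pool.Agent.W147.PS.Scale

set_option autoImplicit false

/-! # Record prime gaps at the points of a family of vectors modulo a prime -/

namespace Pool.Agent.N647.FG

open Finset Filter
open Pool.Agent.W147.PS (ff ff_compare ev_pow)

lemma prod_pert {κ : Type} (s : Finset κ) (N B : κ → ℝ) (η : ℝ) (h0 : 0 ≤ η) (h1 : η ≤ 1)
    (hB : ∀ j ∈ s, 0 ≤ B j) (hN : ∀ j ∈ s, |N j - B j| ≤ η * B j) :
    |∏ j ∈ s, N j - ∏ j ∈ s, B j| ≤ (2 ^ s.card - 1) * η * ∏ j ∈ s, B j := by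
  classical
  induction s using Finset.induction_on with
  | empty => simp
  | insert a s ha ih =>
    have ih' := ih (fun j hj => hB j (mem_insert_of_mem hj)) (fun j hj => hN j (mem_insert_of_mem hj))
    rw [prod_insert ha, prod_insert ha, card_insert_of_notMem ha]
    have hBa := hB a (mem_insert_self _ _)
    have hNa := hN a (mem_insert_self _ _)
    have hB0 : 0 ≤ ∏ j ∈ s, B j := prod_nonneg fun j hj => hB j (mem_insert_of_mem hj)
    set b := ∏ j ∈ s, B j
    set n := ∏ j ∈ s, N j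
    have h2 : (1 : ℝ) ≤ 2 ^ s.card := one_le_pow₀ (by norm_num)
    have h3 : |n| ≤ 2 ^ s.card * b := by
      have h4 : |n| ≤ |n - b| + |b| := by
        have := abs_add_le (n - b) b
        rwa [sub_add_cancel] at this
      rw [abs_of_nonneg hB0] at h4
      have h5 : (2 ^ s.card - 1) * η * b ≤ (2 ^ s.card - 1) * 1 * b := by
        apply mul_le_mul_of_nonneg_right _ hB0
        apply mul_le_mul_of_nonneg_left h1 (by linarith)
      linarith
    have e : N a * n - B a * b = (N a - B a) * n + B a * (n - b) := by ring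
    rw [e]
    refine (abs_add_le _ _).trans ?_
    rw [abs_mul, abs_mul, abs_of_nonneg hBa]
    calc |N a - B a| * |n| + B a * |n - b|
        ≤ (η * B a) * (2 ^ s.card * b) + B a * ((2 ^ s.card - 1) * η * b) := by
          gcongr
      _ = _ := by ring

section

variable {p : ℕ} [Fact p.Prime]

/-- the pairs of a member of the family and a vector of integers of the box which reduces to it -/
noncomputable def fam {ι : Type} (S : Finset ι) {r : ℕ} (R : ι → Fin r → ZMod p) (M : Fin r → ℤ)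
    (L : Fin r → ℕ) : Finset (Σ _ : ι, (Fin r → ℤ)) :=
  S.sigma fun i => Fintype.piFinset fun j =>
    (Ioc (M j) (M j + L j)).filter (fun x : ℤ => (x : ZMod p) = R i j)

lemma fam_card {ι : Type} (S : Finset ι) {r : ℕ} (R : ι → Fin r → ZMod p) (M : Fin r → ℤ)
    (L : Fin r → ℕ) (q : ℕ) (ρ : Fin r → ℤ) :
    (((fam S R M L).filter (fun z => ∀ j, (q : ℤ) ∣ z.2 j - ρ j)).card : ℝ) =
      ∑ i ∈ S, ∏ j, (((AP (M j) (L j) q (ρ j)).filter
        (fun x : ℤ => (x : ZMod p) = R i j)).card : ℝ) := by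
  have h1 : (fam S R M L).filter (fun z => ∀ j, (q : ℤ) ∣ z.2 j - ρ j) =
      S.sigma fun i => Fintype.piFinset fun j =>
        (AP (M j) (L j) q (ρ j)).filter (fun x : ℤ => (x : ZMod p) = R i j) := by
    ext ⟨i, x⟩
    simp only [fam, AP, mem_filter, mem_sigma, Fintype.mem_piFinset, mem_Ioc]
    constructor
    · rintro ⟨⟨h1, h2⟩, h3⟩
      exact ⟨h1, fun j => ⟨⟨(h2 j).1, h3 j⟩, (h2 j).2⟩⟩
    · rintro ⟨h1, h2⟩
      exact ⟨⟨h1, fun j => ⟨(h2 j).1.1, (h2 j).2⟩⟩, fun j => (h2 j).1.2⟩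
  rw [h1, card_sigma]
  push_cast
  refine sum_congr rfl fun i _ => ?_
  rw [Fintype.card_piFinset]
  push_cast
  rfl

/-- the family is equidistributed in the residue classes of the moduli `q ≤ Q` -/
lemma fam_equi {ι : Type} (S : Finset ι) (hS : S.Nonempty) {r : ℕ} (R : ι → Fin r → ZMod p)
    (E : ℝ) (hE0 : 0 ≤ E) (hE : ∀ α : Fin r → ZMod p, α ≠ 0 →
      ‖∑ i ∈ S, (ZMod.stdAddChar (∑ j, α j * R i j) : ℂ)‖ ≤ E)
    (M : Fin r → ℤ) (L : Fin r → ℕ) (B γ Q : ℝ) (hB : 1 ≤ B) (hLB : ∀ j, B ≤ L j)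
    (hLp : ∀ j, L j ≤ p) (hQ1 : 1 ≤ Q) (hQp : Q < p) (hQB : Q ≤ B)
    (h1 : E * (Real.log p + 3) ^ r ≤ γ / 2 * (S.card * ∏ j, ((L j : ℝ) / p)))
    (h2 : 2 ^ r * (Q / B) ≤ γ / 2) (h3 : γ ≤ 1 / 2) :
    (S.card * ∏ j, ((L j : ℝ) / p)) / 2 ≤ ((fam S R M L).card : ℝ) ∧
    ∀ q : ℕ, 1 ≤ q → (q : ℝ) ≤ Q → ∀ ρ : Fin r → ℤ,
      |(((fam S R M L).filter (fun z => ∀ j, (q : ℤ) ∣ z.2 j - ρ j)).card : ℝ) -
        (fam S R M L).card / (q : ℝ) ^ r| ≤ (fam S R M L).card * (4 * γ) := by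
  have hp0 : (0 : ℝ) < p := by exact_mod_cast (Fact.out : p.Prime).pos
  have hp1 : (1 : ℝ) ≤ p := by exact_mod_cast (Fact.out : p.Prime).one_le
  have hlog : 0 ≤ Real.log p := Real.log_nonneg hp1
  have hL0 : ∀ j, (0 : ℝ) < L j := fun j => by linarith [hLB j]
  have hScard : (0 : ℝ) < S.card := by exact_mod_cast hS.card_pos
  set A : ℝ := S.card * ∏ j, ((L j : ℝ) / p) with hA
  have hA0 : 0 < A := by
    rw [hA]
    exact mul_pos hScard (prod_pos fun j _ => div_pos (hL0 j) hp0)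
  have key : ∀ q : ℕ, 1 ≤ q → (q : ℝ) ≤ Q → ∀ ρ : Fin r → ℤ,
      |(((fam S R M L).filter (fun z => ∀ j, (q : ℤ) ∣ z.2 j - ρ j)).card : ℝ) -
        A / (q : ℝ) ^ r| ≤ γ * A := by
    intro q hq hqQ ρ
    have hqR : (1 : ℝ) ≤ q := by exact_mod_cast hq
    have hq0 : (0 : ℝ) < q := by linarith
    have hqp : q < p := by exact_mod_cast hqQ.trans_lt hQp
    rw [fam_card]
    have c1 := count S R (fun j => AP (M j) (L j) q (ρ j)) E hE0 hE
    have c2 : ∏ j, W p (AP (M j) (L j) q (ρ j)) ≤ (Real.log p + 3) ^ r := by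
      calc ∏ j, W p (AP (M j) (L j) q (ρ j)) ≤ ∏ _j : Fin r, (Real.log p + 3) :=
            prod_le_prod (fun j _ => W_nonneg _) fun j _ => W_AP (M j) (L j) q hq hqp (hLp j) (ρ j)
        _ = _ := by rw [prod_const, card_univ, Fintype.card_fin]
    have c3 := prod_pert univ (fun j => ((AP (M j) (L j) q (ρ j)).card : ℝ) / p)
      (fun j => (L j : ℝ) / q / p) (Q / B) (by positivity)
      (by rw [div_le_one (by linarith)]; exact hQB) (fun j _ => by positivity)
      (fun j _ => by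
        rw [← sub_div, abs_div, abs_of_pos hp0, mul_div_assoc']
        apply div_le_div_of_nonneg_right _ hp0.le
        refine (AP_card (M j) (L j) q hq (ρ j)).trans ?_
        rw [div_mul_div_comm, one_le_div (by positivity)]
        have := hLB j
        calc B * q ≤ L j * Q := by
              apply mul_le_mul this hqQ hq0.le (hL0 j).le
          _ = _ := mul_comm _ _)
    rw [card_univ, Fintype.card_fin] at c3
    have e1 : ∏ j, ((L j : ℝ) / q / p) = (∏ j, ((L j : ℝ) / p)) / q ^ r := by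
      have : ∀ j, (L j : ℝ) / q / p = ((L j : ℝ) / p) / q := fun j => by
        rw [div_right_comm]
      rw [prod_congr rfl fun j _ => this j, prod_div_distrib, prod_const, card_univ,
        Fintype.card_fin]
    rw [e1] at c3
    have hPi : 0 ≤ ∏ j, ((L j : ℝ) / p) := prod_nonneg fun j _ => by positivity
    have c4 : |(S.card : ℝ) * ∏ j, (((AP (M j) (L j) q (ρ j)).card : ℝ) / p) - A / q ^ r| ≤
        2 ^ r * (Q / B) * A := by
      have e2 : (S.card : ℝ) * ∏ j, (((AP (M j) (L j) q (ρ j)).card : ℝ) / p) - A / q ^ r =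
          S.card * (∏ j, (((AP (M j) (L j) q (ρ j)).card : ℝ) / p) -
            (∏ j, ((L j : ℝ) / p)) / q ^ r) := by
        rw [hA]; ring
      rw [e2, abs_mul, abs_of_pos hScard]
      calc (S.card : ℝ) * |∏ j, (((AP (M j) (L j) q (ρ j)).card : ℝ) / p) -
            (∏ j, ((L j : ℝ) / p)) / q ^ r|
          ≤ S.card * ((2 ^ r - 1) * (Q / B) * ((∏ j, ((L j : ℝ) / p)) / q ^ r)) :=
            mul_le_mul_of_nonneg_left c3 hScard.le
        _ ≤ S.card * (2 ^ r * (Q / B) * (∏ j, ((L j : ℝ) / p))) := by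
            apply mul_le_mul_of_nonneg_left _ hScard.le
            apply mul_le_mul _ (div_le_self hPi (one_le_pow₀ hqR)) (by positivity) (by positivity)
            apply mul_le_mul_of_nonneg_right _ (by positivity)
            linarith
        _ = _ := by rw [hA]; ring
    have c5 : |∑ i ∈ S, ∏ j, (((AP (M j) (L j) q (ρ j)).filter
        (fun x : ℤ => (x : ZMod p) = R i j)).card : ℝ) -
        (S.card : ℝ) * ∏ j, (((AP (M j) (L j) q (ρ j)).card : ℝ) / p)| ≤ γ / 2 * A :=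
      c1.trans ((mul_le_mul_of_nonneg_left c2 hE0).trans h1)
    have c6 := abs_add_le (∑ i ∈ S, ∏ j, (((AP (M j) (L j) q (ρ j)).filter
        (fun x : ℤ => (x : ZMod p) = R i j)).card : ℝ) -
        (S.card : ℝ) * ∏ j, (((AP (M j) (L j) q (ρ j)).card : ℝ) / p))
        ((S.card : ℝ) * ∏ j, (((AP (M j) (L j) q (ρ j)).card : ℝ) / p) - A / q ^ r)
    rw [sub_add_sub_cancel] at c6
    have c7 : 2 ^ r * (Q / B) * A ≤ γ / 2 * A := mul_le_mul_of_nonneg_right h2 hA0.le
    linarith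
  have k1 := key 1 le_rfl (by simpa using hQ1) (fun _ => 0)
  have e3 : (fam S R M L).filter (fun z => ∀ j, ((1 : ℕ) : ℤ) ∣ z.2 j - (fun _ => (0 : ℤ)) j) =
      fam S R M L := by
    rw [filter_true_of_mem]
    intro z _ j
    simp
  rw [e3] at k1
  simp only [Nat.cast_one, one_pow, div_one] at k1
  set T : ℝ := ((fam S R M L).card : ℝ) with hT
  have k2 : A / 2 ≤ T := by
    have := (abs_le.mp k1).1
    nlinarith
  refine ⟨k2, ?_⟩
  · intro q hq hqQ ρ
    have k3 := key q hq hqQ ρ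
    have hqR : (1 : ℝ) ≤ q := by exact_mod_cast hq
    have k4 : |A / (q : ℝ) ^ r - T / (q : ℝ) ^ r| ≤ γ * A := by
      rw [← sub_div, abs_div, abs_sub_comm, abs_of_pos (show (0 : ℝ) < (q : ℝ) ^ r by positivity)]
      exact (div_le_self (abs_nonneg _) (one_le_pow₀ hqR)).trans k1
    have k5 := abs_add_le ((((fam S R M L).filter (fun z => ∀ j, (q : ℤ) ∣ z.2 j - ρ j)).card : ℝ) -
        A / (q : ℝ) ^ r) (A / (q : ℝ) ^ r - T / (q : ℝ) ^ r)
    rw [sub_add_sub_cancel] at k5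
    have hγ : 0 ≤ γ := by
      have := (abs_nonneg _).trans k1
      by_contra h
      push Not at h
      nlinarith
    nlinarith

end

/-- the integers at distance at most `B` of `v` all have a prime factor at most `y` -/
def Far (v : ℤ) (B y : ℝ) : Prop :=
  ∀ m : ℤ, |(m : ℝ) - v| ≤ B → ∃ l : ℕ, l.Prime ∧ (l : ℝ) ≤ y ∧ (l : ℤ) ∣ m

open scoped Classical in
/-- **Record gaps at the points of a family of vectors modulo `p`**: if the non-trivial exponential sums
of a family of vectors modulo `p` of length `r` save `p ^ ε`, then every box of sides between `p ^ δ` and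
`p` and volume at least `p ^ (r - ε + δ)` contains at least `p ^ (-δ)` times the expected number of
vectors of integers which reduce to members of the family and all of whose coordinates are
far from the integers without prime factors `≤ p ^ δ`. -/
theorem main (r : ℕ) (hr : 1 ≤ r) (ε δ : ℝ) (hδ : 0 < δ) (hδ1 : δ ≤ 1) :
    ∃ κ : ℝ, 0 < κ ∧ ∃ p₀ : ℕ, ∀ (p : ℕ) [Fact p.Prime], p₀ ≤ p →
    ∀ (ι : Type) (S : Finset ι) (R : ι → Fin r → ZMod p), S.Nonempty →
    (∀ α : Fin r → ZMod p, α ≠ 0 →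
      ‖∑ i ∈ S, (ZMod.stdAddChar (∑ j, α j * R i j) : ℂ)‖ ≤ S.card * (p : ℝ) ^ (-ε)) →
    ∀ (M : Fin r → ℤ) (L : Fin r → ℕ), (∀ j, L j ≤ p) → (∀ j, (p : ℝ) ^ δ ≤ L j) →
      (p : ℝ) ^ ((r : ℝ) - ε + δ) ≤ ∏ j, (L j : ℝ) →
    (p : ℝ) ^ (-δ) * (S.card * ∏ j, ((L j : ℝ) / p)) ≤
      (((fam S R M L).filter (fun z => ∀ j, Far (z.2 j) (κ * ff p) ((p : ℝ) ^ δ))).card : ℝ) := by
  obtain ⟨κ, hκ, X₀, hc⟩ := Pool.Agent.Y961.JR.critJ r hr
  have hrR : (1 : ℝ) ≤ r := by exact_mod_cast hr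
  set θ : ℝ := δ / (4 * r + 2) with hθ
  have hθ0 : 0 < θ := by positivity
  have hθe : θ * (4 * r + 2) = δ := by rw [hθ]; field_simp
  have hθδ : θ ≤ δ := by nlinarith
  have hθ1 : θ ≤ 1 := hθδ.trans hδ1
  refine ⟨κ * (θ / 32), by positivity, ?_⟩
  have hlog : ∀ᶠ x : ℝ in atTop, (Real.log x + 3) ^ r ≤ x ^ (θ / 2) := by
    have h1 := (isLittleO_log_rpow_atTop (show (0 : ℝ) < θ / 2 / r by positivity)).def
      (show (0 : ℝ) < 1 / 2 by norm_num)
    have h2 := (tendsto_rpow_atTop (show (0 : ℝ) < θ / 2 / r by positivity)).eventually_ge_atTop 6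
    filter_upwards [h1, h2, eventually_ge_atTop (1 : ℝ)] with x h1 h2 h3
    have h4 := Real.log_nonneg h3
    rw [Real.norm_eq_abs, abs_of_nonneg h4, Real.norm_eq_abs, abs_of_nonneg (by positivity)] at h1
    calc (Real.log x + 3) ^ r ≤ (x ^ (θ / 2 / r)) ^ r := by
          apply pow_le_pow_left₀ (by linarith)
          linarith
      _ = x ^ (θ / 2) := by
          rw [← Real.rpow_natCast, ← Real.rpow_mul (by linarith)]
          congr 1
          field_simp
  have hev := ((((((ff_compare θ hθ0 hθ1).and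
    ((tendsto_rpow_atTop hθ0).eventually_ge_atTop (max X₀ 1))).and
    (eventually_gt_atTop (1 : ℝ))).and hlog).and
    (ev_pow (-(δ - θ / 2)) (-(δ / 2)) 32 (by nlinarith))).and
    (ev_pow (θ - δ) (-(2 * r * θ)) (2 ^ r * 32) (by nlinarith))).and
    (ev_pow (-δ) (-(2 * r * θ)) 16 (by nlinarith))
  obtain ⟨x₀, hx₀⟩ := eventually_atTop.mp hev
  obtain ⟨p₀, hp₀⟩ := exists_nat_ge x₀
  refine ⟨p₀, ?_⟩
  intro p _ hp ι S R hS hE M L hL hLB hvol
  have hpx : x₀ ≤ (p : ℝ) := hp₀.trans (by exact_mod_cast hp)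
  obtain ⟨⟨⟨⟨⟨⟨⟨-, g1⟩, g2⟩, g3⟩, g4⟩, g5⟩, g6⟩, g7⟩ := hx₀ p hpx
  have hp0 : (0 : ℝ) < p := by linarith
  have hmono : ∀ x y : ℝ, x ≤ y → (p : ℝ) ^ x ≤ (p : ℝ) ^ y := fun x y h =>
    Real.rpow_le_rpow_of_exponent_le g3.le h
  set X : ℝ := (p : ℝ) ^ θ with hX
  have hX0 : X₀ ≤ X := (le_max_left _ _).trans g2
  have hX1 : 1 ≤ X := (le_max_right _ _).trans g2
  obtain ⟨-, hc2⟩ := hc X hX0
  have hScard : (0 : ℝ) < S.card := by exact_mod_cast hS.card_pos
  have hQ : X ^ (2 / 5 : ℝ) ≤ X := by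
    calc X ^ (2 / 5 : ℝ) ≤ X ^ (1 : ℝ) := Real.rpow_le_rpow_of_exponent_le hX1 (by norm_num)
      _ = X := Real.rpow_one X
  have hXδ : X ≤ (p : ℝ) ^ δ := hmono _ _ hθδ
  have hXp : X ^ (2 / 5 : ℝ) < p := by
    rw [hX, ← Real.rpow_mul hp0.le]
    calc (p : ℝ) ^ (θ * (2 / 5)) < (p : ℝ) ^ (1 : ℝ) :=
          Real.rpow_lt_rpow_of_exponent_lt g3 (by linarith)
      _ = p := Real.rpow_one _
  set γ : ℝ := X ^ (-(2 * (r : ℝ))) / 16 with hγ
  have hγe : X ^ (-(2 * (r : ℝ))) = (p : ℝ) ^ (-(2 * r * θ)) := by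
    rw [hX, ← Real.rpow_mul hp0.le]
    congr 1
    ring
  have hγ1 : X ^ (-(2 * (r : ℝ))) ≤ 1 := Real.rpow_le_one_of_one_le_of_nonpos hX1 (by linarith)
  obtain ⟨hcard, heq⟩ := fam_equi S hS R (S.card * (p : ℝ) ^ (-ε)) (by positivity) hE M L
    ((p : ℝ) ^ δ) γ (X ^ (2 / 5 : ℝ)) (hX1.trans hXδ) hLB hL
    (Real.one_le_rpow hX1 (by norm_num)) hXp (hQ.trans hXδ)
    (by
      have e1 : ∏ j, ((L j : ℝ) / p) = (∏ j, (L j : ℝ)) / (p : ℝ) ^ (r : ℝ) := by
        rw [prod_div_distrib, prod_const, card_univ, Fintype.card_fin, Real.rpow_natCast]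
      rw [e1]
      have h1 : (p : ℝ) ^ ((r : ℝ) - ε + δ) / (p : ℝ) ^ (r : ℝ) ≤
          (∏ j, (L j : ℝ)) / (p : ℝ) ^ (r : ℝ) := by gcongr
      rw [← Real.rpow_sub hp0] at h1
      have h2 : (p : ℝ) ^ (-ε) * (Real.log p + 3) ^ r ≤
          γ / 2 * (p : ℝ) ^ ((r : ℝ) - ε + δ - r) := by
        calc (p : ℝ) ^ (-ε) * (Real.log p + 3) ^ r ≤ (p : ℝ) ^ (-ε) * (p : ℝ) ^ (θ / 2) := by
              gcongr
          _ = (p : ℝ) ^ (-(δ - θ / 2)) * (p : ℝ) ^ (δ - ε) := by
              rw [← Real.rpow_add hp0, ← Real.rpow_add hp0]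
              congr 1
              ring
          _ ≤ ((p : ℝ) ^ (-(δ / 2)) / 32) * (p : ℝ) ^ (δ - ε) := by
              gcongr
              linarith
          _ ≤ ((p : ℝ) ^ (-(2 * r * θ)) / 32) * (p : ℝ) ^ (δ - ε) := by
              gcongr
              · exact g3.le
              · nlinarith
          _ = _ := by
              rw [hγ, hγe]
              have : (r : ℝ) - ε + δ - r = δ - ε := by ring
              rw [this]
              ring
      calc S.card * (p : ℝ) ^ (-ε) * (Real.log p + 3) ^ r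
          = S.card * ((p : ℝ) ^ (-ε) * (Real.log p + 3) ^ r) := by ring
        _ ≤ S.card * (γ / 2 * (p : ℝ) ^ ((r : ℝ) - ε + δ - r)) := by gcongr
        _ ≤ S.card * (γ / 2 * ((∏ j, (L j : ℝ)) / (p : ℝ) ^ (r : ℝ))) := by
            gcongr
        _ = _ := by ring)
    (by
      rw [hγ, hγe]
      have h1 : X ^ (2 / 5 : ℝ) / (p : ℝ) ^ δ ≤ (p : ℝ) ^ (θ - δ) := by
        rw [Real.rpow_sub hp0]
        gcongr
      have h2 : (2 : ℝ) ^ r * (X ^ (2 / 5 : ℝ) / (p : ℝ) ^ δ) ≤ 2 ^ r * (p : ℝ) ^ (θ - δ) := by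
        gcongr
      linarith)
    (by
      rw [hγ]
      linarith)
  set A : ℝ := S.card * ∏ j, ((L j : ℝ) / p) with hA
  have hA0 : 0 < A := by
    rw [hA]
    refine mul_pos hScard (prod_pos fun j _ => div_pos ?_ hp0)
    exact (Real.rpow_pos_of_pos hp0 δ).trans_le (hLB j)
  set s := fam S R M L with hs
  set good : (Σ _ : ι, (Fin r → ℤ)) → Prop := fun z =>
    ∀ j, Far (z.2 j) (κ * (θ / 32) * ff p) ((p : ℝ) ^ δ) with hgood
  set T : ℝ := (s.card : ℝ) with hT
  set g : ℝ := ((s.filter good).card : ℝ) with hg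
  by_contra hlt
  push Not at hlt
  have hg0 : 0 ≤ g := Nat.cast_nonneg _
  have hpδ : 16 * (p : ℝ) ^ (-δ) ≤ X ^ (-(2 * (r : ℝ))) := by rw [hγe]; exact g7
  have hgT : g ≤ 2 * (p : ℝ) ^ (-δ) * T := by
    have h1 : (p : ℝ) ^ (-δ) * A ≤ (p : ℝ) ^ (-δ) * (2 * T) := by
      apply mul_le_mul_of_nonneg_left _ (by positivity)
      linarith
    linarith
  have hT0 : 0 < T := by linarith
  have hgT2 : g ≤ X ^ (-(2 * (r : ℝ))) / 8 * T := by
    refine hgT.trans ?_
    apply mul_le_mul_of_nonneg_right _ hT0.le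
    linarith
  set s' := s.filter (fun z => ¬ good z) with hs'
  have hsplit : ∀ (P : (Σ _ : ι, (Fin r → ℤ)) → Prop) [DecidablePred P],
      ((s'.filter P).card : ℝ) =
      ((s.filter P).card : ℝ) - (((s.filter good).filter P).card : ℝ) := by
    intro P _
    have h1 : s'.filter P = (s.filter P).filter (fun z => ¬ good z) := by
      rw [hs', filter_comm]
    have h2 : (s.filter good).filter P = (s.filter P).filter good := filter_comm _ _ _
    rw [h1, h2]
    have h3 := card_filter_add_card_filter_not (s := s.filter P) good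
    have h4 : ((((s.filter P).filter good).card : ℝ)) +
        (((s.filter P).filter (fun z => ¬ good z)).card : ℝ) = ((s.filter P).card : ℝ) := by
      exact_mod_cast h3
    linarith
  have hs'card : (s'.card : ℝ) = T - g := by
    have := hsplit (fun _ => True)
    simpa [hT, hg] using this
  have hne : s'.Nonempty := by
    rw [← card_pos]
    have : (0 : ℝ) < s'.card := by
      rw [hs'card]
      nlinarith
    exact_mod_cast this
  obtain ⟨z, hz, hz2⟩ := hc2 _ s' (fun z j => z.2 j) hne (by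
    intro q hq hqX ρ
    have hqR : (1 : ℝ) ≤ (q : ℝ) ^ r := one_le_pow₀ (by exact_mod_cast hq)
    rw [hsplit, hs'card]
    have h1 := heq q hq hqX ρ
    have h2 : ((((s.filter good).filter (fun z => ∀ j, (q : ℤ) ∣ z.2 j - ρ j)).card : ℕ) : ℝ) ≤ g := by
      rw [hg]
      exact_mod_cast card_le_card (filter_subset _ _)
    have h3 : 0 ≤ ((((s.filter good).filter (fun z => ∀ j, (q : ℤ) ∣ z.2 j - ρ j)).card : ℕ) : ℝ) :=
      Nat.cast_nonneg _
    have h4 : (T - g) / (q : ℝ) ^ r = T / (q : ℝ) ^ r - g / (q : ℝ) ^ r := sub_div _ _ _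
    have h5 : g / (q : ℝ) ^ r ≤ g := div_le_self hg0 hqR
    have h6 : 0 ≤ g / (q : ℝ) ^ r := by positivity
    have h7 : (T - g) * X ^ (-(2 * (r : ℝ))) ≥ T / 2 * X ^ (-(2 * (r : ℝ))) := by
      apply mul_le_mul_of_nonneg_right _ (by positivity)
      nlinarith
    have h8 : T * (4 * γ) = T / 4 * X ^ (-(2 * (r : ℝ))) := by rw [hγ]; ring
    rw [h8] at h1
    rw [h4]
    have h9 := abs_le.mp h1
    rw [abs_le]
    constructor
    · linarith [h9.1]
    · linarith [h9.2])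
  rw [hs', mem_filter] at hz
  apply hz.2
  rw [hgood]
  intro j m hm
  obtain ⟨l, hl, hl2, hl3⟩ := hz2 j m (by
    refine hm.trans ?_
    have h5 := (g1 X le_rfl (by
      calc X ≤ (p : ℝ) ^ (2 : ℝ) := hmono _ _ (by linarith)
        _ = (p : ℝ) ^ 2 := by norm_num)).1
    calc κ * (θ / 32) * ff p = κ * (θ / 32 * ff p) := by ring
      _ ≤ κ * ff X := mul_le_mul_of_nonneg_left h5 hκ.le
      _ ≤ κ * ff X + 1 := by linarith)
  refine ⟨l, hl, hl2.trans ?_, hl3⟩
  refine le_trans ?_ hXδ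
  calc X ^ (1 / 10 : ℝ) ≤ X ^ (1 : ℝ) := Real.rpow_le_rpow_of_exponent_le hX1 (by norm_num)
    _ = X := Real.rpow_one X

end Pool.Agent.N647.FG
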