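import Mathlib

set_option autoImplicit false

/-! # Counting the points of a family of vectors modulo `p` in a product of sets of integers -/

namespace Pool.Agent.N647.FG

open Finset

variable {p : ℕ} [Fact p.Prime]

omit [Fact p.Prime] in
lemma psi_sum {A M κ : Type} [AddCommMonoid A] [CommMonoid M] (ψ : AddChar A M) (s : Finset κ)
    (f : κ → A) : ψ (∑ j ∈ s, f j) = ∏ j ∈ s, ψ (f j) := by
  classical
  induction s using Finset.induction_on with
  | empty => simp
  | insert a s ha ih => rw [sum_insert ha, prod_insert ha, AddChar.map_add_eq_mul, ih]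

/-- the exponential sum of a finite set of integers -/
noncomputable def F (X : Finset ℤ) (α : ZMod p) : ℂ :=
  ∑ x ∈ X, (ZMod.stdAddChar (-(α * (x : ZMod p))) : ℂ)

lemma F_zero (X : Finset ℤ) : F X (0 : ZMod p) = X.card := by
  unfold F
  simp

/-- the mean of the absolute values of the exponential sums -/
noncomputable def W (p : ℕ) [Fact p.Prime] (X : Finset ℤ) : ℝ :=
  (1 / (p : ℝ)) * ∑ α : ZMod p, ‖F X α‖

lemma card_eq (X : Finset ℤ) (R : ZMod p) :
    (((X.filter (fun x : ℤ => (x : ZMod p) = R)).card : ℕ) : ℂ) =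
      ∑ α : ZMod p, (1 / (p : ℂ)) * (ZMod.stdAddChar (α * R) * F X α) := by
  have hp : (p : ℂ) ≠ 0 := by exact_mod_cast (Fact.out : p.Prime).ne_zero
  have h1 : ∀ x : ℤ, (if (x : ZMod p) = R then (1 : ℂ) else 0) =
      (1 / (p : ℂ)) * ∑ α : ZMod p, ZMod.stdAddChar (α * (R - (x : ZMod p))) := by
    intro x
    rw [AddChar.sum_mulShift (R - (x : ZMod p)) (ZMod.isPrimitive_stdAddChar p), ZMod.card]
    by_cases h : (x : ZMod p) = R
    · simp [h, hp]
    · rw [if_neg h, if_neg]
      · simp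
      · intro h2
        exact h (sub_eq_zero.mp h2).symm
  rw [card_filter]
  push_cast
  rw [sum_congr rfl fun x _ => h1 x, ← mul_sum, ← mul_sum, sum_comm]
  congr 1
  refine sum_congr rfl fun α _ => ?_
  unfold F
  rw [mul_sum]
  refine sum_congr rfl fun x _ => ?_
  rw [← AddChar.map_add_eq_mul]
  congr 1
  ring

/-- **the count**: a family of vectors modulo `p` whose non-trivial exponential sums are at most `E` has
the expected number of points in a product of sets of integers, up to `E` times the product of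
the means of the exponential sums of these sets. -/
theorem count {ι : Type} (S : Finset ι) {r : ℕ} (R : ι → Fin r → ZMod p) (X : Fin r → Finset ℤ)
    (E : ℝ) (hE0 : 0 ≤ E) (hE : ∀ α : Fin r → ZMod p, α ≠ 0 →
      ‖∑ i ∈ S, (ZMod.stdAddChar (∑ j, α j * R i j) : ℂ)‖ ≤ E) :
    |(∑ i ∈ S, ∏ j, (((X j).filter (fun x : ℤ => (x : ZMod p) = R i j)).card : ℝ)) -
        S.card * ∏ j, ((X j).card / (p : ℝ))| ≤ E * ∏ j, W p (X j) := by
  classical
  have hp0 : (0 : ℝ) < p := by exact_mod_cast (Fact.out : p.Prime).pos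
  have hpC : (p : ℂ) ≠ 0 := by exact_mod_cast (Fact.out : p.Prime).ne_zero
  set G : (Fin r → ZMod p) → ℂ := fun α => ∏ j, ((1 / (p : ℂ)) * F (X j) (α j)) with hG
  have h1 : ∀ i, (∏ j, (((X j).filter (fun x : ℤ => (x : ZMod p) = R i j)).card : ℂ)) =
      ∑ α : Fin r → ZMod p, ZMod.stdAddChar (∑ j, α j * R i j) * G α := by
    intro i
    rw [prod_congr rfl fun j _ => card_eq (X j) (R i j)]
    rw [prod_univ_sum]
    rw [Fintype.piFinset_univ]
    refine sum_congr rfl fun α _ => ?_
    rw [psi_sum, hG, ← prod_mul_distrib]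
    refine prod_congr rfl fun j _ => ?_
    ring
  have h2 : (∑ i ∈ S, ∏ j, (((X j).filter (fun x : ℤ => (x : ZMod p) = R i j)).card : ℂ)) =
      ∑ α : Fin r → ZMod p, G α * ∑ i ∈ S, ZMod.stdAddChar (∑ j, α j * R i j) := by
    rw [sum_congr rfl fun i _ => h1 i, sum_comm]
    refine sum_congr rfl fun α _ => ?_
    rw [mul_sum]
    refine sum_congr rfl fun i _ => ?_
    ring
  have h3 : G 0 * ∑ i ∈ S, (ZMod.stdAddChar (∑ j, (0 : Fin r → ZMod p) j * R i j) : ℂ) =
      S.card * ∏ j, ((X j).card / (p : ℂ)) := by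
    have e1 : G 0 = ∏ j, ((X j).card / (p : ℂ)) := by
      rw [hG]
      refine prod_congr rfl fun j _ => ?_
      rw [Pi.zero_apply, F_zero]
      ring
    rw [e1]
    simp
    ring
  rw [← add_sum_erase univ _ (mem_univ (0 : Fin r → ZMod p)), h3] at h2
  have h4 : ‖∑ α ∈ univ.erase (0 : Fin r → ZMod p),
      G α * ∑ i ∈ S, (ZMod.stdAddChar (∑ j, α j * R i j) : ℂ)‖ ≤ E * ∏ j, W p (X j) := by
    have h5 : ∏ j, W p (X j) = ∑ α : Fin r → ZMod p, ‖G α‖ := by
      unfold W
      rw [prod_congr rfl fun j _ => mul_sum _ _ _, prod_univ_sum, Fintype.piFinset_univ]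
      refine sum_congr rfl fun α _ => ?_
      rw [hG]
      simp only [norm_prod]
      refine prod_congr rfl fun j _ => ?_
      rw [norm_mul, norm_div, norm_one, Complex.norm_natCast]
    rw [h5, mul_sum]
    refine (norm_sum_le _ _).trans ?_
    refine (sum_le_sum (g := fun α => E * ‖G α‖) fun α hα => ?_).trans ?_
    · rw [norm_mul, mul_comm]
      exact mul_le_mul_of_nonneg_right (hE α (ne_of_mem_erase hα)) (norm_nonneg _)
    · exact sum_le_sum_of_subset_of_nonneg (erase_subset _ _) fun α _ _ =>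
        mul_nonneg hE0 (norm_nonneg _)
  have h7 : ((((∑ i ∈ S, ∏ j, (((X j).filter (fun x : ℤ => (x : ZMod p) = R i j)).card : ℝ)) -
        S.card * ∏ j, ((X j).card / (p : ℝ)) : ℝ)) : ℂ) =
      ∑ α ∈ univ.erase (0 : Fin r → ZMod p),
      G α * ∑ i ∈ S, (ZMod.stdAddChar (∑ j, α j * R i j) : ℂ) := by
    push_cast
    rw [h2]
    ring
  rw [← h7] at h4
  rw [← Real.norm_eq_abs, ← Complex.norm_real]
  exact h4

end Pool.Agent.N647.FG
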