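import Pool.Agent.N647.FG.Thm

set_option autoImplicit false

/-! # The joint criterion with a count -/

namespace Pool.Agent.N647.FG

open Finset Filter
open Pool.Agent.W147.PS (ff ff_compare ev_pow)

open scoped Classical in
/-- **the joint criterion with a count**: a finite family of vectors of integers which is equidistributed in the
residue classes of the moduli up to a small power of `P` has at least `P ^ (-δ)` times its
number of members with all coordinates far from the integers without prime factors `≤ P ^ δ`. -/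
theorem crit_count (r : ℕ) (hr : 1 ≤ r) (δ : ℝ) (hδ : 0 < δ) (hδ1 : δ ≤ 1) :
    ∃ κ : ℝ, 0 < κ ∧ ∀ᶠ P : ℝ in atTop,
    ∀ (ι : Type) (s : Finset ι) (v : ι → Fin r → ℤ),
    (∀ q : ℕ, 1 ≤ q → (q : ℝ) ≤ P ^ (δ / (4 * r + 2)) → ∀ ρ : Fin r → ℤ,
      |((s.filter (fun i => ∀ j, (q : ℤ) ∣ v i j - ρ j)).card : ℝ) - s.card / (q : ℝ) ^ r| ≤
        s.card * P ^ (-δ)) →
    P ^ (-δ) * s.card ≤
      ((s.filter (fun i => ∀ j, Far (v i j) (κ * ff P) (P ^ δ))).card : ℝ) := by
  obtain ⟨κ, hκ, X₀, hc⟩ := Pool.Agent.Y961.JR.critJ r hr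
  have hrR : (1 : ℝ) ≤ r := by exact_mod_cast hr
  set θ : ℝ := δ / (4 * r + 2) with hθ
  have hθ0 : 0 < θ := by positivity
  have hθe : θ * (4 * r + 2) = δ := by rw [hθ]; field_simp
  have hθδ : θ ≤ δ := by nlinarith
  have hθ1 : θ ≤ 1 := hθδ.trans hδ1
  refine ⟨κ * (θ / 32), by positivity, ?_⟩
  filter_upwards [ff_compare θ hθ0 hθ1, (tendsto_rpow_atTop hθ0).eventually_ge_atTop (max X₀ 1),
    eventually_gt_atTop (1 : ℝ), ev_pow (-δ) (-(2 * r * θ)) 8 (by nlinarith)]
    with P g1 g2 g3 g7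
  intro ι s v heq
  replace g1 := g1.2
  have hp0 : (0 : ℝ) < P := by linarith
  have hmono : ∀ x y : ℝ, x ≤ y → P ^ x ≤ P ^ y := fun x y h =>
    Real.rpow_le_rpow_of_exponent_le g3.le h
  set X : ℝ := P ^ θ with hX
  have hX0 : X₀ ≤ X := (le_max_left _ _).trans g2
  have hX1 : 1 ≤ X := (le_max_right _ _).trans g2
  obtain ⟨-, hc2⟩ := hc X hX0
  have hQ : X ^ (2 / 5 : ℝ) ≤ X := by
    calc X ^ (2 / 5 : ℝ) ≤ X ^ (1 : ℝ) := Real.rpow_le_rpow_of_exponent_le hX1 (by norm_num)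
      _ = X := Real.rpow_one X
  have hXδ : X ≤ P ^ δ := hmono _ _ hθδ
  have hγe : X ^ (-(2 * (r : ℝ))) = P ^ (-(2 * r * θ)) := by
    rw [hX, ← Real.rpow_mul hp0.le]
    congr 1
    ring
  have hγ1 : X ^ (-(2 * (r : ℝ))) ≤ 1 := Real.rpow_le_one_of_one_le_of_nonpos hX1 (by linarith)
  set good : ι → Prop := fun z =>
    ∀ j, Far (v z j) (κ * (θ / 32) * ff P) (P ^ δ) with hgood
  set T : ℝ := (s.card : ℝ) with hT
  set g : ℝ := ((s.filter good).card : ℝ) with hg
  by_contra hlt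
  push Not at hlt
  have hg0 : 0 ≤ g := Nat.cast_nonneg _
  have hpδ : 8 * P ^ (-δ) ≤ X ^ (-(2 * (r : ℝ))) := by rw [hγe]; exact g7
  have hPδ0 : 0 < P ^ (-δ) := Real.rpow_pos_of_pos hp0 _
  have hT0 : 0 < T := by
    by_contra h0
    push Not at h0
    nlinarith
  have hgT2 : g ≤ T / 8 := by
    have h1 : P ^ (-δ) * T ≤ X ^ (-(2 * (r : ℝ))) / 8 * T :=
      mul_le_mul_of_nonneg_right (by linarith) hT0.le
    have h2 : X ^ (-(2 * (r : ℝ))) / 8 * T ≤ 1 / 8 * T :=
      mul_le_mul_of_nonneg_right (by linarith) hT0.le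
    linarith
  set s' := s.filter (fun z => ¬ good z) with hs'
  have hsplit : ∀ (Q : ι → Prop) [DecidablePred Q],
      ((s'.filter Q).card : ℝ) =
      ((s.filter Q).card : ℝ) - (((s.filter good).filter Q).card : ℝ) := by
    intro Q _
    have h1 : s'.filter Q = (s.filter Q).filter (fun z => ¬ good z) := by
      rw [hs', filter_comm]
    have h2 : (s.filter good).filter Q = (s.filter Q).filter good := filter_comm _ _ _
    rw [h1, h2]
    have h3 := card_filter_add_card_filter_not (s := s.filter Q) good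
    have h4 : ((((s.filter Q).filter good).card : ℝ)) +
        (((s.filter Q).filter (fun z => ¬ good z)).card : ℝ) = ((s.filter Q).card : ℝ) := by
      exact_mod_cast h3
    linarith
  have hs'card : (s'.card : ℝ) = T - g := by
    have := hsplit (fun _ => True)
    simpa [hT, hg] using this
  have hne : s'.Nonempty := by
    rw [← card_pos]
    have : (0 : ℝ) < s'.card := by
      rw [hs'card]
      linarith
    exact_mod_cast this
  obtain ⟨z, hz, hz2⟩ := hc2 _ s' v hne (by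
    intro q hq hqX ρ
    have hqR : (1 : ℝ) ≤ (q : ℝ) ^ r := one_le_pow₀ (by exact_mod_cast hq)
    rw [hsplit, hs'card]
    have h1 := heq q hq (hqX.trans hQ) ρ
    have h2 : ((((s.filter good).filter (fun z => ∀ j, (q : ℤ) ∣ v z j - ρ j)).card : ℕ) : ℝ) ≤ g := by
      rw [hg]
      exact_mod_cast card_le_card (filter_subset _ _)
    have h3 : 0 ≤ ((((s.filter good).filter (fun z => ∀ j, (q : ℤ) ∣ v z j - ρ j)).card : ℕ) : ℝ) :=
      Nat.cast_nonneg _
    have h4 : (T - g) / (q : ℝ) ^ r = T / (q : ℝ) ^ r - g / (q : ℝ) ^ r := sub_div _ _ _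
    have h5 : g / (q : ℝ) ^ r ≤ g := div_le_self hg0 hqR
    have h6 : 0 ≤ g / (q : ℝ) ^ r := by positivity
    have h7 : (T - g) * X ^ (-(2 * (r : ℝ))) ≥ T / 2 * X ^ (-(2 * (r : ℝ))) := by
      apply mul_le_mul_of_nonneg_right _ (by positivity)
      linarith
    have h8 : T / 2 * X ^ (-(2 * (r : ℝ))) ≥ T / 2 * (8 * P ^ (-δ)) :=
      mul_le_mul_of_nonneg_left hpδ (by positivity)
    rw [h4]
    have h9 := abs_le.mp h1
    have h10 : g ≤ P ^ (-δ) * T := hlt.le
    rw [abs_le]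
    constructor
    · nlinarith [h9.1]
    · nlinarith [h9.2])
  rw [hs', mem_filter] at hz
  apply hz.2
  rw [hgood]
  intro j m hm
  obtain ⟨l, hl, hl2, hl3⟩ := hz2 j m (by
    refine hm.trans ?_
    have h5 := (g1 X le_rfl (by
      calc X ≤ P ^ (2 : ℝ) := hmono _ _ (by linarith)
        _ = P ^ 2 := by norm_num)).1
    calc κ * (θ / 32) * ff P = κ * (θ / 32 * ff P) := by ring
      _ ≤ κ * ff X := mul_le_mul_of_nonneg_left h5 hκ.le
      _ ≤ κ * ff X + 1 := by linarith)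
  refine ⟨l, hl, hl2.trans ?_, hl3⟩
  refine le_trans ?_ hXδ
  calc X ^ (1 / 10 : ℝ) ≤ X ^ (1 : ℝ) := Real.rpow_le_rpow_of_exponent_le hX1 (by norm_num)
    _ = X := Real.rpow_one X

end Pool.Agent.N647.FG
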