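import Pool.Agent.N647.FG.Count
import Pool.Agent.H304R2.EC.Gauss2
import Pool.Agent.H498R2.SM_T8

set_option autoImplicit false

/-! # Exponential sums over quadrics modulo a prime -/

namespace Pool.Agent.N647.FG

open Finset
open Pool.Agent.H304R2.EC.G1Aux (g norm_g_one complete_square)

variable {p : ℕ} [Fact p.Prime]

/-- the quadratic character with complex values -/
noncomputable def chi (p : ℕ) [Fact p.Prime] (t : ZMod p) : ℂ := ((quadraticChar (ZMod p) t : ℤ) : ℂ)

lemma chi_mul (s t : ZMod p) : chi p (s * t) = chi p s * chi p t := by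
  unfold chi
  rw [map_mul]
  push_cast
  rfl

lemma chi_sq {t : ZMod p} (ht : t ≠ 0) : chi p t ^ 2 = 1 := by
  unfold chi
  have := quadraticChar_sq_one (F := ZMod p) ht
  exact_mod_cast this

lemma norm_chi {t : ZMod p} (ht : t ≠ 0) : ‖chi p t‖ = 1 := by
  have h := congrArg norm (chi_sq ht)
  rw [norm_pow, norm_one] at h
  exact (pow_eq_one_iff_of_nonneg (norm_nonneg _) two_ne_zero).mp h

lemma sum_shift (b : ZMod p) (hb : b ≠ 0) : ∑ y : ZMod p, (ZMod.stdAddChar (b * y) : ℂ) = 0 := by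
  have h := AddChar.sum_mulShift (R := ZMod p) b (ZMod.isPrimitive_stdAddChar p)
  rw [if_neg hb] at h
  rw [← Nat.cast_zero (R := ℂ), ← h]
  exact sum_congr rfl fun y _ => by rw [mul_comm]

/-- the quadratic Gauss sum as a sum with the quadratic character -/
lemma g_eq_chi (hp2 : p ≠ 2) (c : ZMod p) (hc : c ≠ 0) :
    g p c = ∑ y : ZMod p, chi p y * ZMod.stdAddChar (c * y) := by
  classical
  have hF : ringChar (ZMod p) ≠ 2 := by rw [ZMod.ringChar_zmod_n]; exact hp2
  have h1 : ∀ y : ZMod p, (((univ.filter (fun x : ZMod p => x ^ 2 = y)).card : ℕ) : ℂ) =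
      chi p y + 1 := by
    intro y
    have h2 := quadraticChar_card_sqrts hF y
    unfold chi
    have h3 : ((univ.filter (fun x : ZMod p => x ^ 2 = y)).card : ℤ) =
        quadraticChar (ZMod p) y + 1 := by
      rw [← h2]
      congr 2
      ext x
      simp
    exact_mod_cast h3
  have h2 : g p c = ∑ y : ZMod p, (((univ.filter (fun x : ZMod p => x ^ 2 = y)).card : ℕ) : ℂ) *
      ZMod.stdAddChar (c * y) := by
    unfold g
    rw [← sum_fiberwise univ (fun x : ZMod p => x ^ 2)]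
    refine sum_congr rfl fun y _ => ?_
    rw [sum_congr rfl (g := fun _ => (ZMod.stdAddChar (c * y) : ℂ))]
    · rw [sum_const, nsmul_eq_mul]
    · intro x hx
      rw [(mem_filter.mp hx).2]
  rw [h2]
  simp_rw [h1, add_mul, one_mul]
  rw [sum_add_distrib, sum_shift c hc, add_zero]

lemma g_mul (hp2 : p ≠ 2) (c : ZMod p) (hc : c ≠ 0) : g p c = chi p c * g p 1 := by
  rw [g_eq_chi hp2 c hc, g_eq_chi hp2 1 one_ne_zero]
  have h1 : ∑ y : ZMod p, chi p y * (ZMod.stdAddChar (1 * y) : ℂ) =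
      ∑ y : ZMod p, chi p (c * y) * (ZMod.stdAddChar (1 * (c * y)) : ℂ) :=
    (Equiv.sum_comp (Equiv.mulLeft₀ c hc)
      (fun y => chi p y * (ZMod.stdAddChar (1 * y) : ℂ))).symm
  rw [h1, mul_sum]
  refine sum_congr rfl fun y _ => ?_
  rw [chi_mul, one_mul, ← mul_assoc, ← mul_assoc, ← sq, chi_sq hc, one_mul]

/-- the exponential sum of the quadric -/
theorem quad_sum (hp2 : p ≠ 2) (h : ZMod p) (h2 : 2 * h = 1) (r : ℕ) (a α : Fin r → ZMod p)
    (ha : ∀ j, a j ≠ 0) (n : ZMod p) :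
    (p : ℂ) * ∑ x ∈ univ.filter (fun x : Fin r → ZMod p => ∑ j, a j * x j ^ 2 = n),
        (ZMod.stdAddChar (∑ j, α j * x j) : ℂ) =
      (if α = 0 then (p : ℂ) ^ r else 0) + (∏ j, chi p (a j)) * g p 1 ^ r *
        ∑ t ∈ univ.erase (0 : ZMod p), chi p t ^ r *
          ZMod.stdAddChar (-(t * n + t⁻¹ * ∑ j, α j ^ 2 * h ^ 2 * (a j)⁻¹)) := by
  classical
  have key : ∀ x : Fin r → ZMod p, (p : ℂ) * (if ∑ j, a j * x j ^ 2 = n then
      (ZMod.stdAddChar (∑ j, α j * x j) : ℂ) else 0) =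
      ∑ t : ZMod p, ZMod.stdAddChar (-(t * n)) * ∏ j, ZMod.stdAddChar (t * a j * x j ^ 2 + x j * α j) := by
    intro x
    have h3 : ∀ t : ZMod p, (ZMod.stdAddChar (-(t * n)) : ℂ) *
        ∏ j, ZMod.stdAddChar (t * a j * x j ^ 2 + x j * α j) =
        ZMod.stdAddChar (∑ j, α j * x j) * ZMod.stdAddChar (t * (∑ j, a j * x j ^ 2 - n)) := by
      intro t
      rw [← psi_sum, ← AddChar.map_add_eq_mul, ← AddChar.map_add_eq_mul]
      congr 1
      rw [sum_add_distrib]
      have e1 : ∑ j, t * a j * x j ^ 2 = t * ∑ j, a j * x j ^ 2 := by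
        rw [mul_sum]
        exact sum_congr rfl fun j _ => by ring
      have e2 : ∑ j, x j * α j = ∑ j, α j * x j := sum_congr rfl fun j _ => by ring
      rw [e1, e2]
      ring
    rw [sum_congr rfl fun t _ => h3 t, ← mul_sum,
      AddChar.sum_mulShift _ (ZMod.isPrimitive_stdAddChar p), ZMod.card]
    by_cases hx : ∑ j, a j * x j ^ 2 = n
    · rw [if_pos hx, if_pos (sub_eq_zero.mpr hx)]
      ring
    · rw [if_neg hx, if_neg (fun h4 => hx (sub_eq_zero.mp h4))]
      simp
  rw [sum_filter, mul_sum, sum_congr rfl fun x _ => key x, sum_comm]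
  have h4 : ∀ t : ZMod p, ∑ x : Fin r → ZMod p, (ZMod.stdAddChar (-(t * n)) : ℂ) *
      ∏ j, ZMod.stdAddChar (t * a j * x j ^ 2 + x j * α j) =
      ZMod.stdAddChar (-(t * n)) * ∏ j, ∑ y : ZMod p, (ZMod.stdAddChar (t * a j * y ^ 2 + y * α j) : ℂ) := by
    intro t
    rw [← mul_sum, prod_univ_sum, Fintype.piFinset_univ]
  rw [sum_congr rfl fun t _ => h4 t, ← add_sum_erase univ _ (mem_univ (0 : ZMod p))]
  congr 1
  · simp only [zero_mul, neg_zero, AddChar.map_zero_eq_one, one_mul, zero_add]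
    by_cases hα : α = 0
    · rw [if_pos hα]
      have : ∀ j : Fin r, ∑ y : ZMod p, (ZMod.stdAddChar (y * α j) : ℂ) = p := by
        intro j
        rw [hα]
        simp [ZMod.card]
      rw [prod_congr rfl fun j _ => this j, prod_const, card_univ, Fintype.card_fin]
    · rw [if_neg hα]
      obtain ⟨j, hj⟩ := Function.ne_iff.mp hα
      apply prod_eq_zero (mem_univ j)
      rw [← sum_shift (α j) hj]
      exact sum_congr rfl fun y _ => by rw [mul_comm]
  · rw [mul_sum]
    refine sum_congr rfl fun t ht => ?_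
    have ht0 : t ≠ 0 := ne_of_mem_erase ht
    have h5 : ∀ j, ∑ y : ZMod p, (ZMod.stdAddChar (t * a j * y ^ 2 + y * α j) : ℂ) =
        ZMod.stdAddChar (-(t⁻¹ * (α j ^ 2 * h ^ 2 * (a j)⁻¹))) * (chi p t * (chi p (a j) * g p 1)) := by
      intro j
      have hta : t * a j ≠ 0 := mul_ne_zero ht0 (ha j)
      have h6 := complete_square p h h2 (Units.mk0 (t * a j) hta) (α j)
      simp only [Units.val_mk0] at h6
      have e5 : -(α j ^ 2 * h ^ 2 * (((Units.mk0 (t * a j) hta)⁻¹ : (ZMod p)ˣ) : ZMod p)) =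
          -(t⁻¹ * (α j ^ 2 * h ^ 2 * (a j)⁻¹)) := by
        rw [Units.val_inv_eq_inv_val, Units.val_mk0, mul_inv]
        ring
      rw [h6, g_mul hp2 _ hta, chi_mul, e5, mul_assoc (chi p t)]
    rw [prod_congr rfl fun j _ => h5 j, prod_mul_distrib, prod_mul_distrib, prod_mul_distrib,
      ← psi_sum, prod_const, prod_const, card_univ, Fintype.card_fin]
    have e3 : ∑ j, -(t⁻¹ * (α j ^ 2 * h ^ 2 * (a j)⁻¹)) =
        -(t⁻¹ * ∑ j, α j ^ 2 * h ^ 2 * (a j)⁻¹) := by
      rw [sum_neg_distrib, mul_sum]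
    rw [e3]
    have e4 : (ZMod.stdAddChar (-(t * n + t⁻¹ * ∑ j, α j ^ 2 * h ^ 2 * (a j)⁻¹)) : ℂ) =
        ZMod.stdAddChar (-(t * n)) * ZMod.stdAddChar (-(t⁻¹ * ∑ j, α j ^ 2 * h ^ 2 * (a j)⁻¹)) := by
      rw [← AddChar.map_add_eq_mul]
      congr 1
      ring
    rw [e4]
    ring

/-- the exponential sums of the quadric are at most `2 p ^ ((r - 1) / 2)` -/
lemma norm_g (hp2 : p ≠ 2) : ‖g p 1‖ = Real.sqrt p := by
  have hodd : Odd p := (Fact.out : p.Prime).odd_of_ne_two hp2
  rw [← norm_g_one p hodd, Real.sqrt_sq (norm_nonneg _)]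

lemma exists_half (hp2 : p ≠ 2) : ∃ h : ZMod p, 2 * h = 1 := by
  have h2 : (2 : ZMod p) ≠ 0 := by
    intro h0
    have h1 : ((2 : ℕ) : ZMod p) = 0 := by exact_mod_cast h0
    rw [ZMod.natCast_eq_zero_iff] at h1
    exact hp2 ((Nat.prime_dvd_prime_iff_eq (Fact.out : p.Prime) Nat.prime_two).mp h1)
  exact ⟨2⁻¹, mul_inv_cancel₀ h2⟩

/-- Kloosterman sums and Salié sums -/
lemma twisted (hp2 : p ≠ 2) (r : ℕ) (n A : ZMod p) (hn : n ≠ 0) :
    ‖∑ t ∈ univ.erase (0 : ZMod p), chi p t ^ r * (ZMod.stdAddChar (-(t * n + t⁻¹ * A)) : ℂ)‖ ≤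
      2 * Real.sqrt p := by
  classical
  have hp1 : (1 : ℝ) ≤ p := by exact_mod_cast (Fact.out : p.Prime).one_le
  have hs1 : 1 ≤ Real.sqrt p := by rw [Real.one_le_sqrt]; exact hp1
  have hs0 : 0 < Real.sqrt p := by linarith
  have hred : ∀ t ∈ univ.erase (0 : ZMod p), chi p t ^ r = chi p t ^ (r % 2) := by
    intro t ht
    conv_lhs => rw [← Nat.div_add_mod r 2, pow_add, pow_mul, chi_sq (ne_of_mem_erase ht), one_pow,
      one_mul]
  rw [sum_congr rfl fun t ht => by rw [hred t ht]]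
  rcases Nat.mod_two_eq_zero_or_one r with h | h
  · rw [h]
    simp only [pow_zero, one_mul]
    by_cases hA : A = 0
    · rw [hA]
      have h1 : ∑ t ∈ univ.erase (0 : ZMod p), (ZMod.stdAddChar (-(t * n + t⁻¹ * 0)) : ℂ) = -1 := by
        have h2 := sum_shift (-n) (neg_ne_zero.mpr hn)
        rw [← add_sum_erase univ _ (mem_univ (0 : ZMod p)), mul_zero, AddChar.map_zero_eq_one] at h2
        have h3 : ∑ t ∈ univ.erase (0 : ZMod p), (ZMod.stdAddChar (-(t * n + t⁻¹ * 0)) : ℂ) =
            ∑ t ∈ univ.erase (0 : ZMod p), (ZMod.stdAddChar (-n * t) : ℂ) :=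
          sum_congr rfl fun t _ => by congr 1; ring
        rw [h3]
        linear_combination h2
      rw [h1, norm_neg, norm_one]
      linarith
    · have h1 := Pool.Agent.H498R2.kloosterman_prime p (-n) (-A) (neg_ne_zero.mpr hn)
        (neg_ne_zero.mpr hA)
      refine le_trans (le_of_eq ?_) h1
      congr 1
      refine sum_bij' (fun t ht => Units.mk0 t (ne_of_mem_erase ht)) (fun u _ => (u : ZMod p))
        ?_ ?_ ?_ ?_ ?_
      · intro t ht
        exact mem_univ _
      · intro u _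
        exact mem_erase.mpr ⟨u.ne_zero, mem_univ _⟩
      · intro t ht
        rfl
      · intro u _
        exact Units.ext rfl
      · intro t ht
        congr 1
        rw [Units.val_inv_eq_inv_val, Units.val_mk0]
        ring
  · rw [h]
    simp only [pow_one]
    by_cases hA : A = 0
    · rw [hA]
      have h1 : ∑ t ∈ univ.erase (0 : ZMod p), chi p t *
          (ZMod.stdAddChar (-(t * n + t⁻¹ * 0)) : ℂ) = g p (-n) := by
        rw [g_eq_chi hp2 _ (neg_ne_zero.mpr hn), ← add_sum_erase univ _ (mem_univ (0 : ZMod p))]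
        have : chi p (0 : ZMod p) = 0 := by unfold chi; simp
        rw [this, zero_mul, zero_add]
        exact sum_congr rfl fun t _ => by congr 2; ring
      rw [h1, g_mul hp2 _ (neg_ne_zero.mpr hn), norm_mul, norm_chi (neg_ne_zero.mpr hn), one_mul,
        norm_g hp2]
      linarith
    · obtain ⟨hf, hf2⟩ := exists_half hp2
      have hf0 : hf ≠ 0 := by
        rintro rfl
        simp at hf2
      set a : ZMod p := hf ^ 2 * A⁻¹ with ha
      have ha0 : a ≠ 0 := mul_ne_zero (pow_ne_zero _ hf0) (inv_ne_zero hA)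
      have h1 := quad_sum hp2 hf hf2 1 (fun _ => a) (fun _ => 1) (fun _ => ha0) n
      have e1 : ∑ _j : Fin 1, (1 : ZMod p) ^ 2 * hf ^ 2 * a⁻¹ = A := by
        rw [Fin.sum_univ_one, ha]
        field_simp
      rw [e1, if_neg (fun h0 => by simpa using congrFun h0 0), zero_add] at h1
      simp only [Fin.prod_univ_one, pow_one] at h1
      have h2 := congrArg norm h1
      rw [norm_mul, norm_mul, norm_mul, norm_chi ha0, one_mul, norm_g hp2, Complex.norm_natCast] at h2
      have h3 : ‖∑ x ∈ univ.filter (fun x : Fin 1 → ZMod p => ∑ j, a * x j ^ 2 = n),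
          (ZMod.stdAddChar (∑ j, 1 * x j) : ℂ)‖ ≤ 2 := by
        refine (norm_sum_le _ _).trans ?_
        have h4 : (univ.filter (fun x : Fin 1 → ZMod p => ∑ j, a * x j ^ 2 = n)).card ≤ 2 := by
          have h5 : (univ.filter (fun x : Fin 1 → ZMod p => ∑ j, a * x j ^ 2 = n)).card ≤
              ((Polynomial.nthRoots 2 (a⁻¹ * n)).toFinset).card := by
            refine card_le_card_of_injOn (fun x => x 0) ?_ ?_
            · intro x hx
              have hx2 := (mem_filter.mp (mem_coe.mp hx)).2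
              rw [Fin.sum_univ_one] at hx2
              rw [mem_coe, Multiset.mem_toFinset, Polynomial.mem_nthRoots (by norm_num)]
              rw [← hx2]
              field_simp
            · intro x _ y _ hxy
              funext j
              rw [Subsingleton.elim j 0]
              exact hxy
          exact h5.trans ((Multiset.toFinset_card_le _).trans (Polynomial.card_nthRoots _ _))
        calc _ = ∑ x ∈ univ.filter (fun x : Fin 1 → ZMod p => ∑ j, a * x j ^ 2 = n), (1 : ℝ) :=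
              sum_congr rfl fun x _ => AddChar.norm_apply _ _
          _ = ((univ.filter (fun x : Fin 1 → ZMod p => ∑ j, a * x j ^ 2 = n)).card : ℝ) := by simp
          _ ≤ 2 := by exact_mod_cast h4
      have h5 : Real.sqrt p * ‖∑ t ∈ univ.erase (0 : ZMod p), chi p t *
          (ZMod.stdAddChar (-(t * n + t⁻¹ * A)) : ℂ)‖ ≤ Real.sqrt p * (2 * Real.sqrt p) := by
        rw [← h2]
        have : Real.sqrt p * Real.sqrt p = p := Real.mul_self_sqrt (by linarith)
        calc (p : ℝ) * _ ≤ p * 2 := mul_le_mul_of_nonneg_left h3 (by linarith)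
          _ = Real.sqrt p * Real.sqrt p * 2 := by rw [this]
          _ = _ := by ring
      exact le_of_mul_le_mul_left h5 hs0

/-- the bound of the exponential sums of a quadric, for `n ≠ 0` -/
theorem quad_bound (hp2 : p ≠ 2) (r : ℕ) (a α : Fin r → ZMod p)
    (ha : ∀ j, a j ≠ 0) (n : ZMod p) (hn : n ≠ 0) :
    ‖(p : ℂ) * ∑ x ∈ univ.filter (fun x : Fin r → ZMod p => ∑ j, a j * x j ^ 2 = n),
        (ZMod.stdAddChar (∑ j, α j * x j) : ℂ) - (if α = 0 then (p : ℂ) ^ r else 0)‖ ≤
      2 * (Real.sqrt p) ^ (r + 1) := by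
  obtain ⟨h, h2⟩ := exists_half hp2
  rw [quad_sum hp2 h h2 r a α ha n, add_sub_cancel_left, norm_mul, norm_mul, norm_prod,
    prod_congr rfl fun j _ => norm_chi (ha j), prod_const_one, one_mul, norm_pow, norm_g hp2]
  calc (Real.sqrt p) ^ r * _ ≤ (Real.sqrt p) ^ r * (2 * Real.sqrt p) :=
        mul_le_mul_of_nonneg_left (twisted hp2 r n _ hn) (by positivity)
    _ = _ := by ring

/-- the trivial bound of the exponential sums of a quadric -/
theorem quad_bound_zero (hp2 : p ≠ 2) (r : ℕ) (a α : Fin r → ZMod p)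
    (ha : ∀ j, a j ≠ 0) (n : ZMod p) :
    ‖(p : ℂ) * ∑ x ∈ univ.filter (fun x : Fin r → ZMod p => ∑ j, a j * x j ^ 2 = n),
        (ZMod.stdAddChar (∑ j, α j * x j) : ℂ) - (if α = 0 then (p : ℂ) ^ r else 0)‖ ≤
      (Real.sqrt p) ^ (r + 2) := by
  obtain ⟨h, h2⟩ := exists_half hp2
  have hp0 : (0 : ℝ) ≤ p := Nat.cast_nonneg _
  rw [quad_sum hp2 h h2 r a α ha n, add_sub_cancel_left, norm_mul, norm_mul, norm_prod,
    prod_congr rfl fun j _ => norm_chi (ha j), prod_const_one, one_mul, norm_pow, norm_g hp2]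
  have h3 : ‖∑ t ∈ univ.erase (0 : ZMod p), chi p t ^ r * (ZMod.stdAddChar
      (-(t * n + t⁻¹ * ∑ j, α j ^ 2 * h ^ 2 * (a j)⁻¹)) : ℂ)‖ ≤ p := by
    refine (norm_sum_le _ _).trans ?_
    calc _ ≤ ∑ _t ∈ univ.erase (0 : ZMod p), (1 : ℝ) := by
          refine sum_le_sum fun t ht => ?_
          rw [norm_mul, norm_pow, norm_chi (ne_of_mem_erase ht), one_pow, one_mul]
          exact (AddChar.norm_apply _ _).le
      _ ≤ p := by
          rw [sum_const, nsmul_eq_mul, mul_one]
          have : (univ.erase (0 : ZMod p)).card ≤ p := by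
            refine (card_le_card (erase_subset _ _)).trans ?_
            rw [card_univ, ZMod.card]
          exact_mod_cast this
  calc (Real.sqrt p) ^ r * _ ≤ (Real.sqrt p) ^ r * p := mul_le_mul_of_nonneg_left h3 (by positivity)
    _ = (Real.sqrt p) ^ r * (Real.sqrt p * Real.sqrt p) := by rw [Real.mul_self_sqrt hp0]
    _ = _ := by ring

end Pool.Agent.N647.FG
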